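import Pool.Agent.J4H87.K5.Stm

set_option autoImplicit false

/-! Project K5 (helper87), job K4. -/

namespace Pool.Agent.J4H22.K5

open Finset
open Pool.Agent.J4H87.K5
open scoped Classical

noncomputable section

/-- determined by the first `r` values -/
def Det {n : ℕ} (r : ℕ) (Q : Om n → Prop) : Prop :=
  ∀ ω ω' : Om n, (∀ j : Fin (n.choose 2), j.1 < r → ω j = ω' j) → (Q ω ↔ Q ω')

theorem Det.mono {n : ℕ} {r r' : ℕ} {Q : Om n → Prop} (h : Det r Q) (hr : r ≤ r') : Det r' Q :=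
  fun ω ω' hw => h ω ω' (fun j hj => hw j (lt_of_lt_of_le hj hr))

theorem Det.and {n : ℕ} {r : ℕ} {Q R : Om n → Prop} (h : Det r Q) (h' : Det r R) :
    Det r (fun ω => Q ω ∧ R ω) :=
  fun ω ω' hw => and_congr (h ω ω' hw) (h' ω ω' hw)

theorem hist_congr {n : ℕ} {i : ℕ} {ω ω' : Om n}
    (h : ∀ j : Fin (n.choose 2), j.1 < i → ω j = ω' j) : hist ω i = hist ω' i := by
  unfold hist
  apply List.ext_getElem
  · simp
  · intro k h1 h2
    simp only [List.getElem_take, List.getElem_ofFn]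
    unfold off
    rw [h]
    simp only [List.length_take, List.length_ofFn] at h1
    exact lt_of_lt_of_le h1 (min_le_left _ _)

theorem bt_congr {n : ℕ} (A : List (Sym2 (Fin n)) → Prop) {r : ℕ} {ω ω' : Om n}
    (h : ∀ j : Fin (n.choose 2), j.1 < r → ω j = ω' j) : bt A ω r = bt A ω' r := by
  unfold bt
  ext e
  simp only [mem_image, mem_filter, mem_univ, true_and]
  constructor
  · rintro ⟨j, ⟨hj, hA⟩, rfl⟩
    refine ⟨j, ⟨hj, ?_⟩, ?_⟩
    · rw [hist_congr (ω' := ω)]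
      · exact hA
      · intro k hk
        exact (h k (by omega)).symm
    · unfold off
      rw [h j hj]
  · rintro ⟨j, ⟨hj, hA⟩, rfl⟩
    refine ⟨j, ⟨hj, ?_⟩, ?_⟩
    · rw [hist_congr (ω' := ω')]
      · exact hA
      · intro k hk
        exact h k (by omega)
    · unfold off
      rw [h j hj]

theorem bt_mono {n : ℕ} (A : List (Sym2 (Fin n)) → Prop) (ω : Om n) {r r' : ℕ} (h : r ≤ r') :
    bt A ω r ⊆ bt A ω r' := by
  unfold bt
  apply image_subset_image
  intro j hj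
  simp only [mem_filter, mem_univ, true_and] at hj ⊢
  exact ⟨lt_of_lt_of_le hj.1 h, hj.2⟩

theorem det_bt {n : ℕ} (A : List (Sym2 (Fin n)) → Prop) (r : ℕ) (e : Sym2 (Fin n)) :
    Det r (fun ω : Om n => e ∈ bt A ω r) := by
  intro ω ω' h
  show e ∈ bt A ω r ↔ e ∈ bt A ω' r
  rw [bt_congr A h]

theorem pr_eq {n : ℕ} (E : Om n → Prop) [DecidablePred E] :
    pr E = ((univ.filter E).card : ℝ) / (Fintype.card (Om n) : ℝ) := by
  unfold pr
  congr!

theorem pr_nonneg {n : ℕ} (E : Om n → Prop) : 0 ≤ pr E := by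
  unfold pr
  positivity

theorem pr_mono {n : ℕ} {E F : Om n → Prop} (h : ∀ ω, E ω → F ω) : pr E ≤ pr F := by
  unfold pr
  apply div_le_div_of_nonneg_right _ (Nat.cast_nonneg _)
  exact_mod_cast card_le_card (by
    intro ω hω
    simp only [mem_filter, mem_univ, true_and] at hω ⊢
    exact h ω hω)

theorem pr_le_one {n : ℕ} (E : Om n → Prop) : pr E ≤ 1 := by
  unfold pr
  apply div_le_one_of_le₀ _ (Nat.cast_nonneg _)
  exact_mod_cast card_le_univ _

theorem pr_false {n : ℕ} {E : Om n → Prop} (h : ∀ ω, ¬ E ω) : pr E = 0 := by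
  unfold pr
  rw [filter_false_of_mem (fun ω _ => h ω), card_empty]
  simp

/-- union bound over a finset -/
theorem pr_bUnion {n : ℕ} {κ : Type} (S : Finset κ) (E : κ → Om n → Prop) :
    pr (fun ω => ∃ k ∈ S, E k ω) ≤ ∑ k ∈ S, pr (E k) := by
  unfold pr
  rw [← sum_div]
  apply div_le_div_of_nonneg_right _ (Nat.cast_nonneg _)
  rw [← Nat.cast_sum]
  apply Nat.cast_le.2
  refine le_trans (card_le_card ?_) (card_biUnion_le (s := S)
    (t := fun k => univ.filter (E k)))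
  intro ω hω
  simp only [mem_filter, mem_univ, true_and, mem_biUnion] at hω ⊢
  exact hω

/-- a sum of probabilities with a bounded number of `y` -/
theorem sum_pr {n : ℕ} {β : Type} (Y : Finset β) (R : Om n → Prop) (S : β → Om n → Prop) (b : ℕ)
    (hb : ∀ ω, ∀ Z : Finset β, Z ⊆ Y → (∀ y ∈ Z, S y ω) → Z.card ≤ b) :
    ∑ y ∈ Y, pr (fun ω => R ω ∧ S y ω) ≤ b * pr R := by
  rw [sum_congr rfl (fun y _ => pr_eq (fun ω => R ω ∧ S y ω)), pr_eq R]
  rw [← sum_div, ← mul_div_assoc]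
  apply div_le_div_of_nonneg_right _ (Nat.cast_nonneg _)
  have h1 : (∑ y ∈ Y, ((univ.filter (fun ω => R ω ∧ S y ω)).card : ℝ))
      = ((∑ y ∈ Y, (univ.filter (fun ω => R ω ∧ S y ω)).card : ℕ) : ℝ) := by
    push_cast
    rfl
  have h2 : (∑ y ∈ Y, (univ.filter (fun ω => R ω ∧ S y ω)).card)
      ≤ b * (univ.filter R).card := by
    have h3 : ∀ y ∈ Y, (univ.filter (fun ω => R ω ∧ S y ω)).card
        = ∑ ω ∈ univ.filter R, if S y ω then 1 else 0 := by
      intro y _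
      rw [← card_filter, filter_filter]
    rw [sum_congr rfl h3, sum_comm]
    calc _ ≤ ∑ ω ∈ univ.filter R, b := by
          apply sum_le_sum
          intro ω _
          rw [← card_filter]
          apply hb ω _ (filter_subset _ _)
          intro y hy
          exact (mem_filter.1 hy).2
      _ = b * (univ.filter R).card := by
          rw [sum_const, smul_eq_mul, mul_comm]
  calc (∑ y ∈ Y, ((univ.filter (fun ω => R ω ∧ S y ω)).card : ℝ))
      = ((∑ y ∈ Y, (univ.filter (fun ω => R ω ∧ S y ω)).card : ℕ) : ℝ) := h1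
    _ ≤ ((b * (univ.filter R).card : ℕ) : ℝ) := Nat.cast_le.2 h2
    _ = _ := by push_cast; rfl

/-- (CL) over a finset of indices -/
theorem CLI (hCL : S_CL) {n r t : ℕ} {Q : Om n → Prop} (hQ : Det r Q) (ht : t ≤ n.choose 2)
    {ι : Type} (I : Finset ι) (s : ι → Fin (n.choose 2)) (hs : Function.Injective s)
    (hst : ∀ i ∈ I, r ≤ (s i).1 ∧ (s i).1 < t) (c : ι → Sym2 (Fin n)) :
    pr (fun ω => Q ω ∧ ∀ i ∈ I, off ω (s i) = c i) * ((n.choose 2 : ℝ) - t) ^ I.card ≤ pr Q := by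
  have h := hCL n r t I.card Q hQ ht (fun k => s (I.equivFin.symm k))
    (fun k k' h => I.equivFin.symm.injective (Subtype.ext (hs h)))
    (fun k => hst _ (I.equivFin.symm k).2) (fun k => c (I.equivFin.symm k))
  refine le_trans (mul_le_mul_of_nonneg_right (pr_mono ?_) ?_) h
  · rintro ω ⟨h1, h2⟩
    exact ⟨h1, fun k => h2 _ (I.equivFin.symm k).2⟩
  · apply pow_nonneg
    have : (t : ℝ) ≤ (n.choose 2 : ℝ) := Nat.cast_le.2 ht
    linarith

/-- the two stages -/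
theorem two (hCL : S_CL) {n t : ℕ} (ht : t ≤ n.choose 2) {ι : Type} [Fintype ι]
    (s : ι → Fin (n.choose 2)) (hs : Function.Injective s) (hst : ∀ i, (s i).1 < t)
    (r₀ r₁ : ℕ) (h0 : ∀ i, r₀ ≤ (s i).1) (hr : r₀ ≤ r₁) (Q : Om n → Prop) (hQ : Det r₀ Q)
    {β : Type} (Y : Finset β) (R : β → Om n → Prop) (hR : ∀ y, Det r₁ (R y)) (b : ℕ)
    (hb : ∀ ω, ∀ Z : Finset β, Z ⊆ Y → (∀ y ∈ Z, R y ω) → Z.card ≤ b)
    (c : β → ι → Sym2 (Fin n)) (c' : ι → Sym2 (Fin n))
    (hc : ∀ y i, (s i).1 < r₁ → c y i = c' i) :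
    (∑ y ∈ Y, pr (fun ω => Q ω ∧ R y ω ∧ ∀ i, off ω (s i) = c y i)) *
      ((n.choose 2 : ℝ) - t) ^ (Fintype.card ι) ≤ b * pr Q := by
  have hMt : 0 ≤ (n.choose 2 : ℝ) - t := by
    have : (t : ℝ) ≤ (n.choose 2 : ℝ) := Nat.cast_le.2 ht
    linarith
  set I₁ : Finset ι := univ.filter (fun i => (s i).1 < r₁) with hI₁
  set I₂ : Finset ι := univ.filter (fun i => ¬ (s i).1 < r₁) with hI₂
  have hcard : Fintype.card ι = I₂.card + I₁.card := by
    rw [hI₁, hI₂, add_comm, card_filter_add_card_filter_not, card_univ]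
  have hstep1 : ∀ y, pr (fun ω => Q ω ∧ R y ω ∧ ∀ i, off ω (s i) = c y i) *
      ((n.choose 2 : ℝ) - t) ^ I₂.card
      ≤ pr (fun ω => (Q ω ∧ ∀ i ∈ I₁, off ω (s i) = c' i) ∧ R y ω) := by
    intro y
    have hdet : Det r₁ (fun ω : Om n => (Q ω ∧ ∀ i ∈ I₁, off ω (s i) = c' i) ∧ R y ω) := by
      refine Det.and (Det.and (hQ.mono hr) ?_) (hR y)
      intro ω ω' hw
      refine forall_congr' fun i => forall_congr' fun hi => ?_
      have hi' : (s i).1 < r₁ := (mem_filter.1 hi).2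
      unfold off
      rw [hw _ hi']
    refine le_trans (mul_le_mul_of_nonneg_right (pr_mono ?_) (pow_nonneg hMt _))
      (CLI hCL hdet ht I₂ s hs (fun i hi => ⟨not_lt.1 (mem_filter.1 hi).2, hst i⟩) (c y))
    rintro ω ⟨h1, h2, h3⟩
    refine ⟨⟨⟨h1, fun i hi => ?_⟩, h2⟩, fun i _ => h3 i⟩
    rw [h3 i, hc y i (mem_filter.1 hi).2]
  have hstep2 := sum_pr Y (fun ω => Q ω ∧ ∀ i ∈ I₁, off ω (s i) = c' i) R b hb
  have hstep3 := CLI hCL hQ ht I₁ s hs (fun i _ => ⟨h0 i, hst i⟩) c'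
  calc (∑ y ∈ Y, pr (fun ω => Q ω ∧ R y ω ∧ ∀ i, off ω (s i) = c y i)) *
      ((n.choose 2 : ℝ) - t) ^ (Fintype.card ι)
      = (∑ y ∈ Y, pr (fun ω => Q ω ∧ R y ω ∧ ∀ i, off ω (s i) = c y i) *
          ((n.choose 2 : ℝ) - t) ^ I₂.card) * ((n.choose 2 : ℝ) - t) ^ I₁.card := by
        rw [hcard, pow_add, ← mul_assoc, sum_mul]
    _ ≤ (∑ y ∈ Y, pr (fun ω => (Q ω ∧ ∀ i ∈ I₁, off ω (s i) = c' i) ∧ R y ω)) *
          ((n.choose 2 : ℝ) - t) ^ I₁.card := by
        apply mul_le_mul_of_nonneg_right _ (pow_nonneg hMt _)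
        exact sum_le_sum fun y _ => hstep1 y
    _ ≤ (b * pr (fun ω => Q ω ∧ ∀ i ∈ I₁, off ω (s i) = c' i)) *
          ((n.choose 2 : ℝ) - t) ^ I₁.card :=
        mul_le_mul_of_nonneg_right hstep2 (pow_nonneg hMt _)
    _ = b * (pr (fun ω => Q ω ∧ ∀ i ∈ I₁, off ω (s i) = c' i) *
          ((n.choose 2 : ℝ) - t) ^ I₁.card) := by ring
    _ ≤ b * pr Q := mul_le_mul_of_nonneg_left hstep3 (Nat.cast_nonneg _)

theorem card_pairs {n : ℕ} (B : Finset (Sym2 (Fin n))) :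
    ((univ : Finset (Fin n × Fin n)).filter (fun u => s(u.1, u.2) ∈ B)).card ≤ 2 * B.card := by
  apply card_le_mul_card_image_of_maps_to (f := fun u : Fin n × Fin n => s(u.1, u.2))
  · intro u hu
    exact (mem_filter.1 hu).2
  · intro e _
    induction e using Sym2.ind with
    | _ p q =>
      refine le_trans (card_le_card (t := {(p, q), (q, p)}) ?_) card_le_two
      intro u hu
      have h2 := (mem_filter.1 hu).2
      simp only [Sym2.eq_iff] at h2
      simp only [mem_insert, mem_singleton, Prod.ext_iff]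
      exact h2

theorem card_star {n : ℕ} (B : Finset (Sym2 (Fin n))) (u : Fin n) (Z : Finset (Fin n))
    (hZ : ∀ y ∈ Z, s(u, y) ∈ B) : Z.card ≤ B.card := by
  apply card_le_card_of_injOn (fun y => s(u, y)) (fun y hy => hZ y hy)
  intro y _ y' _ h
  have h' := (Sym2.eq_iff.1 h)
  rcases h' with h' | h'
  · exact h'.2
  · exact h'.2.trans h'.1

/-- the labelled vertices -/
def vec {n : ℕ} (a : (Fin n × Fin n) × (Fin n × Fin n)) (y : Fin n) : Fin 5 → Fin n :=
  ![a.1.1, a.1.2, a.2.1, a.2.2, y]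

/-- the closing pairs -/
def clo (h : Sym2 (Fin 5)) (z : Fin 4) : Fin 5 → Sym2 (Fin 5) :=
  ![s(0, 2), h, s((z.succAbove 0).castSucc, 4), s((z.succAbove 1).castSucc, 4),
    s((z.succAbove 2).castSucc, 4)]

theorem clo_inj (h : Sym2 (Fin 5)) (hh : h = s(0, 3) ∨ h = s(1, 2) ∨ h = s(1, 3)) (z : Fin 4)
    (i j : Fin 5) (hij : clo h z i = clo h z j) : i = j := by
  rcases hh with rfl | rfl | rfl <;> revert z i j <;> unfold clo <;> decide

theorem clo_diag (h : Sym2 (Fin 5)) (hh : h = s(0, 3) ∨ h = s(1, 2) ∨ h = s(1, 3)) (z : Fin 4)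
    (i : Fin 5) : ¬ (clo h z i).IsDiag := by
  rcases hh with rfl | rfl | rfl <;> revert z i <;> unfold clo <;> decide

/-- the first two closing pairs do not meet the last vertex -/
theorem clo_indep {n : ℕ} (h : Sym2 (Fin 5)) (hh : h = s(0, 3) ∨ h = s(1, 2) ∨ h = s(1, 3))
    (z : Fin 4) (a : (Fin n × Fin n) × (Fin n × Fin n)) (y y' : Fin n) (i : Fin 5)
    (hi : i = 0 ∨ i = 1) : (clo h z i).map (vec a y) = (clo h z i).map (vec a y') := by
  rcases hi with rfl | rfl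
  · simp [clo, vec]
  · rcases hh with rfl | rfl | rfl <;> simp [clo, vec]

theorem vec_eq {n : ℕ} (x : Fin 5 → Fin n) : vec ((x 0, x 1), (x 2, x 3)) (x 4) = x := by
  funext i
  fin_cases i <;> rfl

theorem vec_z {n : ℕ} (a : (Fin n × Fin n) × (Fin n × Fin n)) (y y' : Fin n) (z : Fin 4) :
    vec a y z.castSucc = vec a y' z.castSucc := by
  fin_cases z <;> rfl

/-- the later stage: the first time of an edge at the last vertex -/
def r1 {m : ℕ} (s : Fin 5 → Fin m) : ℕ := min (s 2).1 (min (s 3).1 (s 4).1)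

/-- the event for fixed times and vertices -/
def Ev {n : ℕ} (A : List (Sym2 (Fin n)) → Prop) (h : Sym2 (Fin 5)) (z : Fin 4)
    (s : Fin 5 → Fin (n.choose 2)) (a : (Fin n × Fin n) × (Fin n × Fin n)) (y : Fin n)
    (ω : Om n) : Prop :=
  (s(a.1.1, a.1.2) ∈ bt A ω (s 0).1 ∧ s(a.2.1, a.2.2) ∈ bt A ω (s 0).1) ∧
    s(vec a a.1.1 z.castSucc, y) ∈ bt A ω (r1 s) ∧
    ∀ i, off ω (s i) = (clo h z i).map (vec a y)

/-- admissible times -/
def Adm {m : ℕ} (t : ℕ) (s : Fin 5 → Fin m) : Prop :=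
  Function.Injective s ∧ (∀ i, (s i).1 < t) ∧ (∀ i, (s 0).1 ≤ (s i).1)

/-- the sum over the vertices -/
theorem stage (hCL : S_CL) {n t b : ℕ} (A : List (Sym2 (Fin n)) → Prop) (ht : t ≤ n.choose 2)
    (hA : Strat t b A) (h : Sym2 (Fin 5)) (hh : h = s(0, 3) ∨ h = s(1, 2) ∨ h = s(1, 3))
    (z : Fin 4) (s : Fin 5 → Fin (n.choose 2)) (hs : Adm t s) :
    (∑ a : (Fin n × Fin n) × (Fin n × Fin n), ∑ y : Fin n, pr (Ev A h z s a y)) *
      ((n.choose 2 : ℝ) - t) ^ 5 ≤ 4 * (b : ℝ) ^ 3 := by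
  obtain ⟨hinj, hst, h0⟩ := hs
  have hr1t : r1 s ≤ t := (min_le_left _ _).trans (hst 2).le
  have hr01 : (s 0).1 ≤ r1 s := le_min (h0 2) (le_min (h0 3) (h0 4))
  have hcardB : ∀ (ω : Om n) (r : ℕ), r ≤ t → (bt A ω r).card ≤ b := fun ω r hr =>
    (card_le_card (bt_mono A ω hr)).trans (hA ω)
  have h1 : ∀ a : (Fin n × Fin n) × (Fin n × Fin n),
      (∑ y : Fin n, pr (Ev A h z s a y)) * ((n.choose 2 : ℝ) - t) ^ 5 ≤
        b * pr (fun ω : Om n => True ∧
          (s(a.1.1, a.1.2) ∈ bt A ω (s 0).1 ∧ s(a.2.1, a.2.2) ∈ bt A ω (s 0).1)) := by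
    intro a
    have h2 := two hCL ht s hinj hst (s 0).1 (r1 s) h0 hr01
      (fun ω : Om n => s(a.1.1, a.1.2) ∈ bt A ω (s 0).1 ∧ s(a.2.1, a.2.2) ∈ bt A ω (s 0).1)
      (Det.and (det_bt A _ _) (det_bt A _ _)) (univ : Finset (Fin n))
      (fun y ω => s(vec a a.1.1 z.castSucc, y) ∈ bt A ω (r1 s)) (fun y => det_bt A _ _) b
      (fun ω Z _ hZ => (card_star (bt A ω (r1 s)) _ Z hZ).trans (hcardB ω _ hr1t))
      (fun y i => (clo h z i).map (vec a y)) (fun i => (clo h z i).map (vec a a.1.1))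
      (by
        intro y i hi
        apply clo_indep h hh z a y _ i
        have h2 : r1 s ≤ (s 2).1 := min_le_left _ _
        have h3 : r1 s ≤ (s 3).1 := (min_le_right _ _).trans (min_le_left _ _)
        have h4 : r1 s ≤ (s 4).1 := (min_le_right _ _).trans (min_le_right _ _)
        fin_cases i
        · exact Or.inl rfl
        · exact Or.inr rfl
        · exact absurd hi (not_lt.2 h2)
        · exact absurd hi (not_lt.2 h3)
        · exact absurd hi (not_lt.2 h4))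
    rw [Fintype.card_fin] at h2
    refine h2.trans ?_
    apply mul_le_mul_of_nonneg_left _ (Nat.cast_nonneg _)
    exact pr_mono (fun ω hω => ⟨trivial, hω⟩)
  have h3 := sum_pr (univ : Finset ((Fin n × Fin n) × (Fin n × Fin n))) (fun _ : Om n => True)
    (fun a ω => s(a.1.1, a.1.2) ∈ bt A ω (s 0).1 ∧ s(a.2.1, a.2.2) ∈ bt A ω (s 0).1)
    ((2 * b) * (2 * b)) (by
      intro ω Z _ hZ
      have h4 := card_pairs (bt A ω (s 0).1)
      have h5 : Z ⊆ ((univ : Finset (Fin n × Fin n)).filter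
          (fun u => s(u.1, u.2) ∈ bt A ω (s 0).1)) ×ˢ ((univ : Finset (Fin n × Fin n)).filter
          (fun u => s(u.1, u.2) ∈ bt A ω (s 0).1)) := by
        intro a ha
        rw [mem_product]
        exact ⟨mem_filter.2 ⟨mem_univ _, (hZ a ha).1⟩, mem_filter.2 ⟨mem_univ _, (hZ a ha).2⟩⟩
      refine (card_le_card h5).trans ?_
      rw [card_product]
      have h6 : (bt A ω (s 0).1).card ≤ b := hcardB ω _ (hst 0).le
      exact Nat.mul_le_mul (h4.trans (by omega)) (h4.trans (by omega)))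
  have h7 : pr (fun _ : Om n => True) ≤ 1 := pr_le_one _
  calc _ = ∑ a : (Fin n × Fin n) × (Fin n × Fin n),
        (∑ y : Fin n, pr (Ev A h z s a y)) * ((n.choose 2 : ℝ) - t) ^ 5 := by rw [sum_mul]
    _ ≤ ∑ a : (Fin n × Fin n) × (Fin n × Fin n), b * pr (fun ω : Om n => True ∧
          (s(a.1.1, a.1.2) ∈ bt A ω (s 0).1 ∧ s(a.2.1, a.2.2) ∈ bt A ω (s 0).1)) :=
        sum_le_sum fun a _ => h1 a
    _ = b * ∑ a : (Fin n × Fin n) × (Fin n × Fin n), pr (fun ω : Om n => True ∧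
          (s(a.1.1, a.1.2) ∈ bt A ω (s 0).1 ∧ s(a.2.1, a.2.2) ∈ bt A ω (s 0).1)) := by
        rw [mul_sum]
    _ ≤ b * (((2 * b) * (2 * b) : ℕ) * pr (fun _ : Om n => True)) :=
        mul_le_mul_of_nonneg_left h3 (Nat.cast_nonneg _)
    _ ≤ b * (((2 * b) * (2 * b) : ℕ) * 1) := by gcongr
    _ = 4 * (b : ℝ) ^ 3 := by push_cast; ring

/-- number of admissible times -/
theorem card_adm (m t : ℕ) :
    ((univ : Finset (Fin 5 → Fin m)).filter (fun s => Adm t s)).card ≤ t ^ 5 := by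
  have h1 : ((univ : Finset (Fin 5 → Fin m)).filter (fun s => Adm t s)) ⊆
      Fintype.piFinset (fun _ : Fin 5 => (univ : Finset (Fin m)).filter (fun j => j.1 < t)) := by
    intro s hs
    rw [Fintype.mem_piFinset]
    intro i
    exact mem_filter.2 ⟨mem_univ _, (mem_filter.1 hs).2.2.1 i⟩
  refine (card_le_card h1).trans ?_
  rw [Fintype.card_piFinset, prod_const, card_univ, Fintype.card_fin]
  apply Nat.pow_le_pow_left
  have h2 : ((univ : Finset (Fin m)).filter (fun j => j.1 < t)).card ≤ (range t).card := by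
    apply card_le_card_of_injOn (fun j : Fin m => j.1)
    · intro j hj
      exact mem_coe.2 (mem_range.2 (mem_filter.1 (mem_coe.1 hj)).2)
    · intro j _ j' _ hjj
      exact Fin.ext hjj
  simpa using h2

/-- the event for fixed `h`, `z` -/
def EvHZ {n : ℕ} (A : List (Sym2 (Fin n)) → Prop) (t : ℕ) (h : Sym2 (Fin 5)) (z : Fin 4)
    (ω : Om n) : Prop :=
  ∃ s ∈ (univ : Finset (Fin 5 → Fin (n.choose 2))).filter (fun s => Adm t s),
    ∃ a ∈ (univ : Finset ((Fin n × Fin n) × (Fin n × Fin n))), ∃ y ∈ (univ : Finset (Fin n)),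
      Ev A h z s a y ω

theorem pr_EvHZ (hCL : S_CL) {n t b : ℕ} (A : List (Sym2 (Fin n)) → Prop)
    (ht : 2 * t ≤ n.choose 2) (hA : Strat t b A) (h : Sym2 (Fin 5))
    (hh : h = s(0, 3) ∨ h = s(1, 2) ∨ h = s(1, 3)) (z : Fin 4) :
    pr (EvHZ A t h z) ≤ 4 * (b : ℝ) ^ 3 * rho n t ^ 5 := by
  have h1 : pr (EvHZ A t h z) ≤ ∑ s ∈ (univ : Finset (Fin 5 → Fin (n.choose 2))).filter
      (fun s => Adm t s), ∑ a : (Fin n × Fin n) × (Fin n × Fin n), ∑ y : Fin n,
        pr (Ev A h z s a y) := by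
    unfold EvHZ
    refine (pr_bUnion _ _).trans (sum_le_sum fun s _ => ?_)
    refine (pr_bUnion _ _).trans (sum_le_sum fun a _ => ?_)
    exact pr_bUnion _ _
  rcases Nat.eq_zero_or_pos (n.choose 2) with hM | hM
  · have h2 : pr (EvHZ A t h z) = 0 := by
      apply pr_false
      rintro ω ⟨s, _, _⟩
      have := (s 0).2
      omega
    rw [h2]
    have : t = 0 := by omega
    subst this
    simp [rho]
  have hMt : 0 < (n.choose 2 : ℝ) - t := by
    have h2 : t < n.choose 2 := by omega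
    have h3 : (t : ℝ) < (n.choose 2 : ℝ) := Nat.cast_lt.2 h2
    linarith
  have h2 : ∀ s ∈ (univ : Finset (Fin 5 → Fin (n.choose 2))).filter (fun s => Adm t s),
      (∑ a : (Fin n × Fin n) × (Fin n × Fin n), ∑ y : Fin n, pr (Ev A h z s a y)) ≤
        4 * (b : ℝ) ^ 3 / ((n.choose 2 : ℝ) - t) ^ 5 := by
    intro s hs
    rw [le_div_iff₀ (pow_pos hMt _)]
    exact stage hCL A (by omega) hA h hh z s (mem_filter.1 hs).2
  refine h1.trans ((sum_le_sum h2).trans ?_)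
  rw [sum_const, nsmul_eq_mul]
  have h3 : (((univ : Finset (Fin 5 → Fin (n.choose 2))).filter (fun s => Adm t s)).card : ℝ) ≤
      (t : ℝ) ^ 5 := by
    exact_mod_cast card_adm (n.choose 2) t
  have h4 : 0 ≤ 4 * (b : ℝ) ^ 3 / ((n.choose 2 : ℝ) - t) ^ 5 := by positivity
  refine (mul_le_mul_of_nonneg_right h3 h4).trans (le_of_eq ?_)
  unfold rho
  rw [div_pow]
  ring

theorem mem_bt {n t : ℕ} {A : List (Sym2 (Fin n)) → Prop} {ω : Om n} {x : Fin 5 → Fin n}
    {τ : Sym2 (Fin 5) → Fin (n.choose 2)} (hE : Emb A ω t x τ) {p : Sym2 (Fin 5)}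
    (hp : ¬ p.IsDiag) {r : ℕ} (hr : (τ p).1 < r) : p.map x ∈ bt A ω r := by
  unfold bt
  refine mem_image.2 ⟨τ p, mem_filter.2 ⟨mem_univ _, hr, (hE.2 p hp).2.2⟩, (hE.2 p hp).2.1⟩

theorem t_K4 : S_CL → S_K4 := by
  intro hCL n t b A ht hA
  have hρ : 0 ≤ rho n t := by
    unfold rho
    have h3 : (t : ℝ) ≤ (n.choose 2 : ℝ) := Nat.cast_le.2 (by omega)
    apply div_nonneg (Nat.cast_nonneg _)
    linarith
  have h1 : pr (fun ω : Om n => ∃ x τ, Emb A ω t x τ ∧
      ∃ h ∈ ({s(0, 3), s(1, 2), s(1, 3)} : Finset (Sym2 (Fin 5))), ∃ z : Fin 5,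
    z ≠ 4 ∧ τ s(0, 1) < τ s(0, 2) ∧ τ s(2, 3) < τ s(0, 2) ∧ τ s(0, 2) < τ h ∧ τ s(0, 2) < τ s(z, 4) ∧
    ∀ w : Fin 5, w ≠ 4 → w ≠ z → τ s(z, 4) < τ s(w, 4)) ≤
      pr (fun ω : Om n => ∃ h ∈ ({s(0, 3), s(1, 2), s(1, 3)} : Finset (Sym2 (Fin 5))),
        ∃ z ∈ (univ : Finset (Fin 4)), EvHZ A t h z ω) := by
    apply pr_mono
    rintro ω ⟨x, τ, hEmb, h, hh, z, hz4, h01, h23, h0h, h0z, hw⟩
    obtain ⟨hx, hE⟩ := id hEmb
    refine ⟨h, hh, ?_⟩
    have hh' : h = s(0, 3) ∨ h = s(1, 2) ∨ h = s(1, 3) := by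
      simpa only [mem_insert, mem_singleton] using hh
    obtain ⟨z', rfl⟩ : ∃ z' : Fin 4, z'.castSucc = z := by
      refine ⟨z.castPred ?_, ?_⟩
      · exact hz4
      · exact Fin.castSucc_castPred _ _
    have hw' : ∀ j : Fin 3, τ s(z'.castSucc, 4) < τ s((z'.succAbove j).castSucc, 4) := by
      intro j
      apply hw
      · exact (Fin.castSucc_lt_last _).ne
      · intro hz
        exact Fin.succAbove_ne z' j (Fin.castSucc_injective _ hz)
    refine ⟨z', mem_univ _, fun i => τ (clo h z' i), ?_, ((x 0, x 1), (x 2, x 3)), mem_univ _,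
      x 4, mem_univ _, ?_⟩
    · refine mem_filter.2 ⟨mem_univ _, ?_, ?_, ?_⟩
      · intro i j hij
        apply clo_inj h hh' z' i j
        have hi := (hE _ (clo_diag h hh' z' i)).2.1
        have hj := (hE _ (clo_diag h hh' z' j)).2.1
        have hij' : τ (clo h z' i) = τ (clo h z' j) := hij
        rw [hij'] at hi
        exact Sym2.map.injective hx (hi.symm.trans hj)
      · intro i
        exact (hE _ (clo_diag h hh' z' i)).1
      · intro i
        fin_cases i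
        · exact le_refl _
        · exact h0h.le
        · exact (h0z.trans (hw' 0)).le
        · exact (h0z.trans (hw' 1)).le
        · exact (h0z.trans (hw' 2)).le
    · refine ⟨⟨?_, ?_⟩, ?_, ?_⟩
      · exact mem_bt hEmb (p := s(0, 1)) (by decide) h01
      · exact mem_bt hEmb (p := s(2, 3)) (by decide) h23
      · have h4 : (τ s(z'.castSucc, 4)).1 < r1 (fun i => τ (clo h z' i)) :=
          lt_min (hw' 0) (lt_min (hw' 1) (hw' 2))
        have h5 := mem_bt hEmb (p := s(z'.castSucc, 4))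
          (by rw [Sym2.mk_isDiag_iff]; exact (Fin.castSucc_lt_last _).ne) h4
        rw [vec_z _ _ (x 4) z', vec_eq]
        exact h5
      · intro i
        rw [vec_eq]
        exact (hE _ (clo_diag h hh' z' i)).2.1
  refine h1.trans ?_
  refine (pr_bUnion _ _).trans ?_
  calc _ ≤ ∑ h ∈ ({s(0, 3), s(1, 2), s(1, 3)} : Finset (Sym2 (Fin 5))),
        ∑ z : Fin 4, 4 * (b : ℝ) ^ 3 * rho n t ^ 5 := by
        apply sum_le_sum
        intro h hh
        refine (pr_bUnion _ _).trans (sum_le_sum fun z _ => ?_)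
        exact pr_EvHZ hCL A ht hA h (by simpa only [mem_insert, mem_singleton] using hh) z
    _ ≤ 200 * (b : ℝ) ^ 3 * rho n t ^ 5 := by
        rw [sum_const, sum_const, card_univ, Fintype.card_fin, nsmul_eq_mul, nsmul_eq_mul]
        have hc : ((({s(0, 3), s(1, 2), s(1, 3)} : Finset (Sym2 (Fin 5))).card : ℕ) : ℝ) ≤ 3 := by
          exact_mod_cast card_le_three
        have hnn : 0 ≤ (b : ℝ) ^ 3 * rho n t ^ 5 := by positivity
        push_cast
        nlinarith [hnn, hc]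

end

end Pool.Agent.J4H22.K5
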